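import Pool.Agent.Helper6.VS.Chain

/-!
# Entropies of the carriers in a chain of copies (vector W, ns_notes_6d, section 3)
-/

set_option autoImplicit false

namespace Pool.Agent.Helper6.VS

open Finset Pool.Agent.Helper69.RK Pool.Agent.Helper61.GL Pool.Agent.Helper31.EC

variable {Ω α β γ δ κ τ σ : Type} [Fintype Ω]

/-- the pair is at most the sum -/
theorem ch_pair_le (μ : Ω → ℝ) (hμ : ∀ ω, 0 ≤ μ ω) (F : Ω → α) (F' : Ω → β) (G : Ω → γ) :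
    CH μ (fun ω => (F ω, F' ω)) G ≤ CH μ F G + CH μ F' G := by
  have h1 := ch_chain μ F F' G
  have h2 := ch_cond μ hμ F' G (fun ω => (F ω, G ω)) fun ω ω' _ _ e => (Prod.ext_iff.1 e).2
  linarith

/-- the gluing function: state and base -/
def gl (S : Ω → σ) (GG : Ω → γ) : Ω → σ × γ := fun ω => (S ω, GG ω)

/-- **count**: the two moved carriers are full given the end state, the base and the frozen carriers -/
theorem ch4_count (μ : Ω → ℝ) (hμ : ∀ ω, 0 ≤ μ ω) (S1 S2 S3 S4 : Ω → σ) (GG : Ω → γ) (q : Ω → κ) (t : Ω → τ)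
    (ht : ∀ ω ω', μ ω ≠ 0 → μ ω' ≠ 0 → q ω = q ω' → t ω = t ω') :
    2 * CH μ t GG - (4 * CH μ q GG - (CH μ q (gl S1 GG) + CH μ q (gl S2 GG) + CH μ q (gl S3 GG) +
      CH μ q (gl S4 GG))) ≤
      CH (ch4 μ (gl S1 GG) (gl S2 GG) (gl S3 GG)) (fun w => (t w.2.1, t w.2.2.2))
        (fun w => ((q w.1, q w.2.2.1), gl S4 GG w.2.2.2)) := by
  set ν := ch4 μ (gl S1 GG) (gl S2 GG) (gl S3 GG) with hν
  have n0 : ∀ w, 0 ≤ ν w := ch4_nonneg μ hμ _ _ _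
  have supp := fun w => ch4_supp μ (gl S1 GG) (gl S2 GG) (gl S3 GG) w
  set Z : Ω × (Ω × (Ω × Ω)) → σ × γ := fun w => gl S4 GG w.2.2.2 with hZ
  set q0 : Ω × (Ω × (Ω × Ω)) → κ := fun w => q w.1 with hq0
  set q1 : Ω × (Ω × (Ω × Ω)) → κ := fun w => q w.2.1 with hq1
  set q2 : Ω × (Ω × (Ω × Ω)) → κ := fun w => q w.2.2.1 with hq2
  set q3 : Ω × (Ω × (Ω × Ω)) → κ := fun w => q w.2.2.2 with hq3
  have sg : ∀ w, ν w ≠ 0 → GG w.1 = GG w.2.2.2 ∧ GG w.2.1 = GG w.2.2.2 ∧ GG w.2.2.1 = GG w.2.2.2 := by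
    intro w h
    obtain ⟨a1, a2, a3, -⟩ := supp w h
    have b1 := congrArg Prod.snd a1
    have b2 := congrArg Prod.snd a2
    have b3 := congrArg Prod.snd a3
    simp only [gl] at b1 b2 b3
    exact ⟨b1.trans (b2.trans b3), b2.trans b3, b3⟩
  -- lower bound
  have e3 : CH ν q3 Z = CH μ q (gl S4 GG) := by
    rw [hν, hq3, hZ, ← push_CH (fun w : Ω × (Ω × (Ω × Ω)) => w.2.2.2) _ (ch4_nonneg μ hμ _ _ _) q (gl S4 GG),
      ch4_push3 μ hμ]
  have e2 : CH μ q (gl S3 GG) ≤ CH ν q2 (fun w => (q3 w, Z w)) := by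
    rw [← ch4_ci2 μ hμ (gl S1 GG) (gl S2 GG) (gl S3 GG) q (fun ω => (q ω, gl S4 GG ω))]
    apply ch_cond ν n0
    intro w w' _ _ e
    exact (Prod.ext_iff.1 e).1
  have e1 : CH μ q (gl S2 GG) ≤ CH ν q1 (fun w => ((q3 w, q2 w), Z w)) := by
    rw [← ch4_ci1 μ hμ (gl S1 GG) (gl S2 GG) (gl S3 GG) q (fun v => ((q v.2, q v.1), gl S4 GG v.2))]
    apply ch_cond ν n0
    intro w w' _ _ e
    exact (Prod.ext_iff.1 e).1
  have e0 : CH μ q (gl S1 GG) ≤ CH ν q0 (fun w => (((q3 w, q2 w), q1 w), Z w)) := by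
    rw [← ch4_ci0 μ hμ (gl S1 GG) (gl S2 GG) (gl S3 GG) q
      (fun v => (((q v.2.2, q v.2.1), q v.1), gl S4 GG v.2.2))]
    apply ch_cond ν n0
    intro w w' _ _ e
    exact (Prod.ext_iff.1 e).1
  have c1 := ch_chain ν q3 q2 Z
  have c2 := ch_chain ν (fun w => (q3 w, q2 w)) q1 Z
  have c3 := ch_chain ν (fun w => ((q3 w, q2 w), q1 w)) q0 Z
  -- upper bound
  have d1 : CH ν (fun w => (((q3 w, q2 w), q1 w), q0 w)) Z ≤
      CH ν (fun w => (((q0 w, q2 w), (t w.2.1, t w.2.2.2)), (q1 w, q3 w))) Z := by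
    apply ch_mono ν n0
    intro w w' _ _ e _
    simp only [Prod.mk.injEq] at e ⊢
    tauto
  have d2 := ch_chain ν (fun w => ((q0 w, q2 w), (t w.2.1, t w.2.2.2))) (fun w => (q1 w, q3 w)) Z
  have d3 := ch_chain ν (fun w => (q0 w, q2 w)) (fun w => (t w.2.1, t w.2.2.2)) Z
  have p0 : CH ν q0 (fun w => GG w.1) = CH μ q GG := by
    rw [hν, hq0, ← push_CH (fun w : Ω × (Ω × (Ω × Ω)) => w.1) _ (ch4_nonneg μ hμ _ _ _) q GG, ch4_push0 μ hμ]
  have p2 : CH ν q2 (fun w => GG w.2.2.1) = CH μ q GG := by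
    rw [hν, hq2, ← push_CH (fun w : Ω × (Ω × (Ω × Ω)) => w.2.2.1) _ (ch4_nonneg μ hμ _ _ _) q GG,
      ch4_push2 μ hμ]
  have p1 : CH ν q1 (fun w => (t w.2.1, GG w.2.1)) = CH μ q (fun ω => (t ω, GG ω)) := by
    rw [hν, hq1, ← push_CH (fun w : Ω × (Ω × (Ω × Ω)) => w.2.1) _ (ch4_nonneg μ hμ _ _ _) q
      (fun ω => (t ω, GG ω)), ch4_push1 μ hμ]
  have p3 : CH ν q3 (fun w => (t w.2.2.2, GG w.2.2.2)) = CH μ q (fun ω => (t ω, GG ω)) := by
    rw [hν, hq3, ← push_CH (fun w : Ω × (Ω × (Ω × Ω)) => w.2.2.2) _ (ch4_nonneg μ hμ _ _ _) q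
      (fun ω => (t ω, GG ω)), ch4_push3 μ hμ]
  have g0 : CH ν q0 Z ≤ CH ν q0 (fun w => GG w.1) := by
    apply ch_cond ν n0
    intro w w' h h' e
    have := congrArg Prod.snd e
    simp only [hZ, gl] at this
    rw [(sg w h).1, (sg w' h').1, this]
  have g2 : CH ν q2 Z ≤ CH ν q2 (fun w => GG w.2.2.1) := by
    apply ch_cond ν n0
    intro w w' h h' e
    have := congrArg Prod.snd e
    simp only [hZ, gl] at this
    rw [(sg w h).2.2, (sg w' h').2.2, this]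
  have g02 := ch_pair_le ν n0 q0 q2 Z
  have g13 := ch_pair_le ν n0 q1 q3 (fun w => (((q0 w, q2 w), (t w.2.1, t w.2.2.2)), Z w))
  have g1 : CH ν q1 (fun w => (((q0 w, q2 w), (t w.2.1, t w.2.2.2)), Z w)) ≤
      CH ν q1 (fun w => (t w.2.1, GG w.2.1)) := by
    apply ch_cond ν n0
    intro w w' h h' e
    simp only [Prod.mk.injEq, hZ, gl] at e ⊢
    rw [(sg w h).2.1, (sg w' h').2.1]
    exact ⟨e.1.2.1, e.2.2⟩
  have g3 : CH ν q3 (fun w => (((q0 w, q2 w), (t w.2.1, t w.2.2.2)), Z w)) ≤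
      CH ν q3 (fun w => (t w.2.2.2, GG w.2.2.2)) := by
    apply ch_cond ν n0
    intro w w' h h' e
    simp only [Prod.mk.injEq, hZ, gl] at e ⊢
    exact ⟨e.1.2.2, e.2.2⟩
  -- `q` and `t`
  have k1 := ch_chain μ t q GG
  have k2 : CH μ (fun ω => (t ω, q ω)) GG = CH μ q GG := by
    apply ch_congr_left
    intro ω ω' h h' _
    rw [Prod.mk.injEq]
    exact ⟨fun e => e.2, fun e => ⟨ht ω ω' h h' e, e⟩⟩
  linarith

end Pool.Agent.Helper6.VS
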