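import Pool.Agent.Helper61.GL.Cal
import Pool.Agent.Helper31.EC.Am

/-!
# Markov chains of exact copies (vector W, ns_notes_6d, section 3)
-/

set_option autoImplicit false

namespace Pool.Agent.Helper6.VS

open Finset Pool.Agent.Helper69.RK Pool.Agent.Helper61.GL Pool.Agent.Helper31.EC

variable {Ω Ω' Ω'' α β γ δ κ τ σ : Type} [Fintype Ω] [Fintype Ω'] [Fintype Ω'']

theorem ms_push (π : Ω' → Ω) (ν : Ω' → ℝ) (f : Ω → α) (a : α) :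
    ms ν (fun w => f (π w)) a = ms (push π ν) f a := by
  unfold ms
  have h := Pool.Agent.Helper70.RK.e5_sum π ν (fun ω => e1_ind (f ω = a))
  have h1 : ∑ ω, e1_ind (f ω = a) * push π ν ω = ∑ ω, push π ν ω * e1_ind (f ω = a) :=
    Finset.sum_congr rfl fun ω _ => mul_comm _ _
  rw [h1, h]
  exact Finset.sum_congr rfl fun ω _ => mul_comm _ _

theorem push_push (π : Ω' → Ω) (ρ : Ω'' → Ω') (ν : Ω'' → ℝ) :
    push π (push ρ ν) = push (fun w => π (ρ w)) ν := by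
  funext ω
  rw [push_ind, push_ind]
  have h := Pool.Agent.Helper70.RK.e5_sum ρ ν (fun ω' => e1_ind (π ω' = ω))
  have h1 : ∑ ω', e1_ind (π ω' = ω) * push ρ ν ω' = ∑ ω', push ρ ν ω' * e1_ind (π ω' = ω) :=
    Finset.sum_congr rfl fun ω' _ => mul_comm _ _
  rw [h1, h]
  exact Finset.sum_congr rfl fun ω _ => mul_comm _ _

theorem push_CH (π : Ω' → Ω) (ν : Ω' → ℝ) (h0 : ∀ ω, 0 ≤ ν ω) (f : Ω → α) (g : Ω → γ) :
    CH (push π ν) f g = CH ν (fun w => f (π w)) (fun w => g (π w)) :=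
  (Pool.Agent.Helper70.RK.st_E5.1 Ω Ω' α γ ν π f g h0).2.2

theorem push_mass (π : Ω' → Ω) (ν : Ω' → ℝ) (h0 : ∀ ω, 0 ≤ ν ω) : mass (push π ν) = mass ν :=
  (Pool.Agent.Helper70.RK.st_E5.1 Ω Ω' Unit Unit ν π (fun _ => ()) (fun _ => ()) h0).2.1

theorem push_supp (π : Ω' → Ω) (ν : Ω' → ℝ) (h0 : ∀ ω, 0 ≤ ν ω) (w : Ω') (h : ν w ≠ 0) :
    push π ν (π w) ≠ 0 := by
  rw [push_ind]
  have h1 : 0 < ν w := lt_of_le_of_ne (h0 w) (Ne.symm h)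
  have h2 : e1_ind (π w = π w) * ν w ≤ ∑ y, e1_ind (π y = π w) * ν y :=
    Finset.single_le_sum (f := fun y => e1_ind (π y = π w) * ν y)
      (fun y _ => mul_nonneg (ind_nonneg _) (h0 y)) (Finset.mem_univ w)
  rw [e1_ind_pos rfl, one_mul] at h2
  exact (lt_of_lt_of_le h1 h2).ne'

/-- the chain of four copies glued over `f1`, `f2`, `f3` -/
noncomputable def ch4 (μ : Ω → ℝ) (f1 f2 f3 : Ω → α) : Ω × (Ω × (Ω × Ω)) → ℝ :=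
  amw μ (amw μ (amw μ μ f3 f3) f2 (fun w => f2 w.1)) f1 (fun w => f1 w.1)

section
variable (μ : Ω → ℝ) (hμ : ∀ ω, 0 ≤ μ ω) (f1 f2 f3 : Ω → α)
include hμ

theorem n3 (w : Ω × Ω) : 0 ≤ amw μ μ f3 f3 w := amw_nonneg μ μ f3 f3 hμ hμ w

theorem l3 (a : α) : ms μ f2 a = ms (amw μ μ f3 f3) (fun w => f2 w.1) a := by
  have h := ms_push Prod.fst (amw μ μ f3 f3) f2 a
  rw [h, amw_push_fst μ μ f3 f3 (fun _ => rfl) hμ]

theorem n2 (w : Ω × (Ω × Ω)) : 0 ≤ amw μ (amw μ μ f3 f3) f2 (fun w => f2 w.1) w :=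
  amw_nonneg _ _ _ _ hμ (n3 μ hμ f3) w

theorem l2 (a : α) : ms μ f1 a = ms (amw μ (amw μ μ f3 f3) f2 (fun w => f2 w.1)) (fun w => f1 w.1) a := by
  have h := ms_push Prod.fst (amw μ (amw μ μ f3 f3) f2 (fun w => f2 w.1)) f1 a
  rw [h, amw_push_fst _ _ _ _ (l3 μ hμ f2 f3) hμ]

theorem ch4_nonneg (w : Ω × (Ω × (Ω × Ω))) : 0 ≤ ch4 μ f1 f2 f3 w :=
  amw_nonneg _ _ _ _ hμ (n2 μ hμ f2 f3) w

omit hμ in
theorem ch4_supp (w : Ω × (Ω × (Ω × Ω))) (h : ch4 μ f1 f2 f3 w ≠ 0) :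
    f1 w.1 = f1 w.2.1 ∧ f2 w.2.1 = f2 w.2.2.1 ∧ f3 w.2.2.1 = f3 w.2.2.2 ∧
      μ w.1 ≠ 0 ∧ μ w.2.1 ≠ 0 ∧ μ w.2.2.1 ≠ 0 ∧ μ w.2.2.2 ≠ 0 := by
  obtain ⟨a1, b1, c1⟩ := amw_supp _ _ _ _ w h
  obtain ⟨a2, b2, c2⟩ := amw_supp _ _ _ _ w.2 c1
  obtain ⟨a3, b3, c3⟩ := amw_supp _ _ _ _ w.2.2 c2
  exact ⟨a1, a2, a3, b1, b2, b3, c3⟩

theorem ch4_push0 : push (fun w : Ω × (Ω × (Ω × Ω)) => w.1) (ch4 μ f1 f2 f3) = μ :=
  amw_push_fst _ _ _ _ (l2 μ hμ f1 f2 f3) hμ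

theorem ch4_tail : push (fun w : Ω × (Ω × (Ω × Ω)) => w.2) (ch4 μ f1 f2 f3) =
    amw μ (amw μ μ f3 f3) f2 (fun w => f2 w.1) :=
  amw_push_snd _ _ _ _ (l2 μ hμ f1 f2 f3) (n2 μ hμ f2 f3)

theorem ch4_push1 : push (fun w : Ω × (Ω × (Ω × Ω)) => w.2.1) (ch4 μ f1 f2 f3) = μ := by
  have h := push_push (fun w : Ω × (Ω × Ω) => w.1) (fun w : Ω × (Ω × (Ω × Ω)) => w.2) (ch4 μ f1 f2 f3)
  rw [← h, ch4_tail μ hμ]
  exact amw_push_fst _ _ _ _ (l3 μ hμ f2 f3) hμ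

theorem ch4_tail2 : push (fun w : Ω × (Ω × (Ω × Ω)) => w.2.2) (ch4 μ f1 f2 f3) = amw μ μ f3 f3 := by
  have h := push_push (fun w : Ω × (Ω × Ω) => w.2) (fun w : Ω × (Ω × (Ω × Ω)) => w.2) (ch4 μ f1 f2 f3)
  rw [← h, ch4_tail μ hμ]
  exact amw_push_snd _ _ _ _ (l3 μ hμ f2 f3) (n3 μ hμ f3)

theorem ch4_push2 : push (fun w : Ω × (Ω × (Ω × Ω)) => w.2.2.1) (ch4 μ f1 f2 f3) = μ := by
  have h := push_push (fun w : Ω × Ω => w.1) (fun w : Ω × (Ω × (Ω × Ω)) => w.2.2) (ch4 μ f1 f2 f3)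
  rw [← h, ch4_tail2 μ hμ]
  exact amw_push_fst _ _ _ _ (fun _ => rfl) hμ

theorem ch4_push3 : push (fun w : Ω × (Ω × (Ω × Ω)) => w.2.2.2) (ch4 μ f1 f2 f3) = μ := by
  have h := push_push (fun w : Ω × Ω => w.2) (fun w : Ω × (Ω × (Ω × Ω)) => w.2.2) (ch4 μ f1 f2 f3)
  rw [← h, ch4_tail2 μ hμ]
  exact amw_push_snd _ _ _ _ (fun _ => rfl) hμ

theorem ch4_mass : mass (ch4 μ f1 f2 f3) = mass μ := by
  rw [← push_mass (fun w : Ω × (Ω × (Ω × Ω)) => w.1) _ (ch4_nonneg μ hμ f1 f2 f3), ch4_push0 μ hμ]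

/-- conditional independence of the first copy -/
theorem ch4_ci0 (X : Ω → β) (Y : Ω × (Ω × Ω) → δ) :
    CH (ch4 μ f1 f2 f3) (fun w => X w.1) (fun w => (Y w.2, f1 w.1)) = CH μ X f1 :=
  amw_CH _ _ _ _ (l2 μ hμ f1 f2 f3) hμ (n2 μ hμ f2 f3) X Y

/-- conditional independence of the second copy from the later ones -/
theorem ch4_ci1 (X : Ω → β) (Y : Ω × Ω → δ) :
    CH (ch4 μ f1 f2 f3) (fun w => X w.2.1) (fun w => (Y w.2.2, f2 w.2.1)) = CH μ X f2 := by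
  have h := push_CH (fun w : Ω × (Ω × (Ω × Ω)) => w.2) (ch4 μ f1 f2 f3) (ch4_nonneg μ hμ f1 f2 f3)
    (fun w => X w.1) (fun w => (Y w.2, f2 w.1))
  rw [← h, ch4_tail μ hμ]
  exact amw_CH _ _ _ _ (l3 μ hμ f2 f3) hμ (n3 μ hμ f3) X Y

/-- conditional independence of the third copy from the last one -/
theorem ch4_ci2 (X : Ω → β) (Y : Ω → δ) :
    CH (ch4 μ f1 f2 f3) (fun w => X w.2.2.1) (fun w => (Y w.2.2.2, f3 w.2.2.1)) = CH μ X f3 := by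
  have h := push_CH (fun w : Ω × (Ω × (Ω × Ω)) => w.2.2) (ch4 μ f1 f2 f3) (ch4_nonneg μ hμ f1 f2 f3)
    (fun w => X w.1) (fun w => (Y w.2, f3 w.1))
  rw [← h, ch4_tail2 μ hμ]
  exact amw_CH _ _ _ _ (fun _ => rfl) hμ hμ X Y

end

end Pool.Agent.Helper6.VS
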