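import Pool.Agent.Helper6.VS.Count

/-!
# The spectator (vector W, ns_notes_6d, (3.2))
-/

set_option autoImplicit false

namespace Pool.Agent.Helper6.VS

open Finset Pool.Agent.Helper69.RK Pool.Agent.Helper61.GL Pool.Agent.Helper31.EC

variable {Ω α β γ δ κ τ σ ρ : Type} [Fintype Ω]

/-- the law with a spectator: second coordinate = copy of the first one given `(q, Bb)` -/
noncomputable def sp (μ : Ω → ℝ) (q : Ω → κ) (Bb : Ω → β) : Ω × Ω → ℝ := amw μ μ (gl q Bb) (gl q Bb)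

section
variable (μ : Ω → ℝ) (hμ : ∀ ω, 0 ≤ μ ω) (q : Ω → κ) (Bb : Ω → β)

omit [Fintype Ω] in
theorem gl_eq {S : Ω → σ} {GG : Ω → γ} {ω ω' : Ω} : gl S GG ω = gl S GG ω' ↔ S ω = S ω' ∧ GG ω = GG ω' := by
  unfold gl
  rw [Prod.mk.injEq]

include hμ in
theorem sp_nonneg (w : Ω × Ω) : 0 ≤ sp μ q Bb w := amw_nonneg _ _ _ _ hμ hμ w

theorem sp_supp (w : Ω × Ω) (h : sp μ q Bb w ≠ 0) :
    q w.1 = q w.2 ∧ Bb w.1 = Bb w.2 ∧ μ w.1 ≠ 0 ∧ μ w.2 ≠ 0 := by
  obtain ⟨a, b, c⟩ := amw_supp _ _ _ _ w h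
  exact ⟨congrArg Prod.fst a, congrArg Prod.snd a, b, c⟩

include hμ in
theorem sp_fst : push Prod.fst (sp μ q Bb) = μ := amw_push_fst _ _ _ _ (fun _ => rfl) hμ

include hμ in
theorem sp_snd : push Prod.snd (sp μ q Bb) = μ := amw_push_snd _ _ _ _ (fun _ => rfl) hμ

include hμ in
theorem sp_CH_fst (f : Ω → α) (g : Ω → γ) : CH (sp μ q Bb) (fun w => f w.1) (fun w => g w.1) = CH μ f g := by
  have h := push_CH Prod.fst (sp μ q Bb) (sp_nonneg μ hμ q Bb) f g
  rw [sp_fst μ hμ] at h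
  exact h.symm

include hμ in
theorem sp_CH_snd (f : Ω → α) (g : Ω → γ) : CH (sp μ q Bb) (fun w => f w.2) (fun w => g w.2) = CH μ f g := by
  have h := push_CH Prod.snd (sp μ q Bb) (sp_nonneg μ hμ q Bb) f g
  rw [sp_snd μ hμ] at h
  exact h.symm

include hμ in
/-- **the spectator costs nothing**: `X` a variable of the configuration which determines `Bb`, `R` the spectator star -/
theorem sp_count (X : Ω → δ) (R : Ω → ρ)
    (hX : ∀ ω ω', μ ω ≠ 0 → μ ω' ≠ 0 → X ω = X ω' → Bb ω = Bb ω') :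
    CH μ q X + CH μ q (gl R Bb) - CH μ q Bb ≤ CH (sp μ q Bb) (fun w => q w.1) (fun w => (X w.1, R w.2)) := by
  set ν := sp μ q Bb with hν
  have n0 : ∀ w, 0 ≤ ν w := sp_nonneg μ hμ q Bb
  have supp : ∀ w, ν w ≠ 0 → q w.1 = q w.2 ∧ Bb w.1 = Bb w.2 ∧ μ w.1 ≠ 0 ∧ μ w.2 ≠ 0 := fun w h =>
    sp_supp μ q Bb w h
  -- mutual information of `q` and `X` given `(R, Bb)`
  have s1 := ch_symm ν (fun w => q w.1) (fun w => X w.1) (fun w => (R w.2, Bb w.1))
  have s2 := ch_symm μ q X Bb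
  -- conditional independence
  have c1 : CH ν (fun w => X w.1) (fun w => (q w.1, (R w.2, Bb w.1))) = CH μ X (gl q Bb) := by
    rw [hν]
    unfold sp
    rw [← amw_CH μ μ (gl q Bb) (gl q Bb) (fun _ => rfl) hμ hμ X R]
    apply ch_congr_right
    intro w w' _ _
    simp only [gl, Prod.mk.injEq]
    tauto
  have c2 : CH ν (fun w => X w.1) (fun w => (R w.2, Bb w.1)) ≤ CH ν (fun w => X w.1) (fun w => Bb w.1) := by
    apply ch_cond ν n0
    intro w w' _ _ e
    exact (Prod.ext_iff.1 e).2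
  have c3 : CH ν (fun w => X w.1) (fun w => Bb w.1) = CH μ X Bb := sp_CH_fst μ hμ q Bb X Bb
  have c4 : CH μ X (gl q Bb) = CH μ X (fun ω => (q ω, Bb ω)) := rfl
  -- the entropy of `q` given `(R, Bb)`
  have d1 : CH ν (fun w => q w.1) (fun w => (R w.2, Bb w.1)) = CH μ q (gl R Bb) := by
    rw [← sp_CH_snd μ hμ q Bb q (gl R Bb), ← hν]
    apply e2_CH_congr
    · intro w w' h h'
      unfold gl
      rw [(supp w h).2.1, (supp w' h').2.1]
    · intro w w' h h'
      unfold gl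
      rw [(supp w h).2.1, (supp w' h').2.1, (supp w h).1, (supp w' h').1]
  have d2 : CH ν (fun w => q w.1) (fun w => (X w.1, (R w.2, Bb w.1))) =
      CH ν (fun w => q w.1) (fun w => (X w.1, R w.2)) := by
    apply ch_congr_right
    intro w w' h h'
    simp only [Prod.mk.injEq]
    constructor
    · intro e
      exact ⟨e.1, e.2.1⟩
    · intro e
      exact ⟨e.1, e.2, hX w.1 w'.1 (supp w h).2.2.1 (supp w' h').2.2.1 e.1⟩
  have d3 : CH μ q (fun ω => (X ω, Bb ω)) = CH μ q X := by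
    apply ch_congr_right
    intro ω ω' h h'
    simp only [Prod.mk.injEq]
    exact ⟨fun e => e.1, fun e => ⟨e, hX ω ω' h h' e⟩⟩
  linarith

end

end Pool.Agent.Helper6.VS
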