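import Pool.Agent.Helper6.VS.Spec
import Pool.Agent.Helper15.VG.LemN

/-!
# Digits of the noise in one form (vector W, ns_notes_6d, section 4)
-/

set_option autoImplicit false

namespace Pool.Agent.Helper6.VS

open Finset Pool.Agent.Helper69.RK Pool.Agent.Helper15.VG
open Pool.Agent.Helper61.GL hiding fl
open Pool.Agent.Helper92.W (fl)

variable {Ω γ κ : Type} [Fintype Ω]

theorem ch_lg (μ : Ω → ℝ) (hμ : ∀ ω, 0 ≤ μ ω) (X : Ω → ℤ) (G : Ω → γ) (y : Ω → ℝ) (j : ℕ)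
    (hy : ∀ ω, μ ω ≠ 0 → 1 ≤ 2 ^ j * y ω) (hG : ∀ ω ω', μ ω ≠ 0 → μ ω' ≠ 0 → G ω = G ω' → y ω = y ω')
    (h : ∀ ω ω', μ ω ≠ 0 → μ ω' ≠ 0 → G ω = G ω' → |(X ω : ℝ) - X ω'| ≤ 2 ^ j * y ω - 1) :
    CH μ X G ≤ ∑ ω, μ ω * (Real.logb 2 (y ω) + j) := by
  refine (ch_intv μ hμ X G (fun ω => 2 ^ j * y ω - 1) (fun ω a => by have := hy ω a; linarith)
    (fun ω ω' a a' e => by rw [hG ω ω' a a' e]) h).trans ?_
  apply Finset.sum_le_sum
  intro ω _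
  by_cases h0 : μ ω = 0
  · rw [h0, zero_mul, zero_mul]
  · apply mul_le_mul_of_nonneg_left _ (hμ ω)
    have h1 := hy ω h0
    have h2 : 0 < y ω := by
      by_contra hc
      push Not at hc
      have : (2 : ℝ) ^ j * y ω ≤ 0 := mul_nonpos_of_nonneg_of_nonpos (by positivity) hc
      linarith
    rw [sub_add_cancel, Real.logb_mul (by positivity) h2.ne', Real.logb_pow,
      Real.logb_self_eq_one (by norm_num), mul_one]
    linarith

/-- the sum of two such bounds -/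
theorem sum_lg (μ : Ω → ℝ) (hμ : ∀ ω, 0 ≤ μ ω) (hm : mass μ = 1) (y y' : Ω → ℝ) (j j' : ℕ) (c : ℝ)
    (hy : ∀ ω, μ ω ≠ 0 → 0 < y ω) (hy' : ∀ ω, μ ω ≠ 0 → 0 < y' ω)
    (h : ∀ ω, μ ω ≠ 0 → Real.logb 2 (y ω * y' ω) = c) :
    (∑ ω, μ ω * (Real.logb 2 (y ω) + j)) + ∑ ω, μ ω * (Real.logb 2 (y' ω) + j') = c + j + j' := by
  rw [← Finset.sum_add_distrib]
  have h1 : ∀ ω ∈ univ, μ ω * (Real.logb 2 (y ω) + j) + μ ω * (Real.logb 2 (y' ω) + j') =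
      μ ω * (c + j + j') := by
    intro ω _
    by_cases h0 : μ ω = 0
    · rw [h0]; ring
    · have h2 := h ω h0
      rw [Real.logb_mul (hy ω h0).ne' (hy' ω h0).ne'] at h2
      rw [← h2]
      ring
  rw [Finset.sum_congr rfl h1, ← Finset.sum_mul]
  have h2 : ∑ ω, μ ω = 1 := hm
  rw [h2, one_mul]

theorem hp1 (l : ℕ) : ((1 : ℝ) / 2) ^ l * 2 ^ l = 1 := by rw [← mul_pow]; norm_num

theorem hp2 (l : ℕ) : (2 : ℝ) ^ l * (1 / 2) ^ l = 1 := by rw [← mul_pow]; norm_num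

theorem lgpow (n : ℕ) : Real.logb 2 ((2 : ℝ) ^ n) = n := by
  rw [Real.logb_pow, Real.logb_self_eq_one (by norm_num), mul_one]

/-- **the noise is full in one form** -/
theorem tau_count (μ : Ω → ℝ) (hμ : ∀ ω, 0 ≤ μ ω) (hm : mass μ = 1) (K : Ω → κ) (a b e e' s : Ω → ℝ)
    (k : Ω → ℕ) (n n1 l0 l1 : ℕ) (c d : ℝ) (hc : |c| = 1)
    (ha : ∀ ω, μ ω ≠ 0 → |a ω| ≤ 1) (hb : ∀ ω, μ ω ≠ 0 → |b ω| ≤ 1)
    (he : ∀ ω ω', μ ω ≠ 0 → μ ω' ≠ 0 → K ω = K ω' → e ω = e ω')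
    (he' : ∀ ω ω', μ ω ≠ 0 → μ ω' ≠ 0 → K ω = K ω' → e' ω = e' ω')
    (hs : ∀ ω ω', μ ω ≠ 0 → μ ω' ≠ 0 → K ω = K ω' → s ω = s ω')
    (hk : ∀ ω ω', μ ω ≠ 0 → μ ω' ≠ 0 → K ω = K ω' → k ω = k ω')
    (e1 : ∀ ω, μ ω ≠ 0 → |e ω| ≤ 4 * (1 / 2) ^ k ω) (e2 : ∀ ω, μ ω ≠ 0 → (1 / 2) ^ k ω ≤ 4 * |e ω|)
    (e1' : ∀ ω, μ ω ≠ 0 → |e' ω| ≤ 4 * (1 / 2) ^ k ω) (e2' : ∀ ω, μ ω ≠ 0 → (1 / 2) ^ k ω ≤ 4 * |e' ω|)
    (s0 : ∀ ω, μ ω ≠ 0 → 0 < s ω) (s1 : ∀ ω, μ ω ≠ 0 → s ω ≤ 1)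
    (hkl : ∀ ω, μ ω ≠ 0 → k ω ≤ l0) (hll : l0 ≤ l1) (hln : l1 ≤ n1) (hnn : n1 ≤ n)
    (hes : ∀ ω, μ ω ≠ 0 → |e ω| / s ω * 2 ^ l1 ≤ 2 ^ n)
    (hd : 2 * n - d ≤ CH μ (fun ω => (fl n (a ω), fl n (b ω))) K) :
    (l1 : ℝ) - l0 - (d + 16) ≤ CH μ (fun ω => fl l1 (c * e ω * a ω / s ω))
      (fun ω => (fl l0 (c * e ω * a ω / s ω), (K ω, fl n1 (e ω * a ω + e' ω * b ω)))) := by
  set X : Ω → ℤ := fun ω => fl n1 (e ω * a ω + e' ω * b ω) with hX
  set τ : Ω → ℝ := fun ω => c * e ω * a ω / s ω with hτ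
  set ta : Ω → ℤ := fun ω => fl n (a ω) with hta
  set tb : Ω → ℤ := fun ω => fl n (b ω) with htb
  set ρ : Ω → ℝ := fun ω => |e ω| / s ω with hρ
  have hph : ∀ l : ℕ, (0 : ℝ) < (1 / 2) ^ l := fun l => by positivity
  have ep : ∀ ω, μ ω ≠ 0 → 0 < |e ω| := fun ω h => by
    have := e2 ω h
    have := hph (k ω)
    linarith
  have ep' : ∀ ω, μ ω ≠ 0 → 0 < |e' ω| := fun ω h => by
    have := e2' ω h
    have := hph (k ω)
    linarith
  have rp : ∀ ω, μ ω ≠ 0 → 0 < ρ ω := fun ω h => div_pos (ep ω h) (s0 ω h)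
  -- step 1: the form and the second carrier
  have q1 : CH μ X K ≤ ∑ ω, μ ω * (Real.logb 2 (2 ^ n1 * (1 / 2) ^ k ω) + (5 : ℕ)) := by
    apply ch_lg μ hμ X K (fun ω => 2 ^ n1 * (1 / 2) ^ k ω) 5
    · intro ω h
      have h1 : (1 : ℝ) ≤ 2 ^ n1 * (1 / 2) ^ k ω := by
        calc (1 : ℝ) = 2 ^ k ω * (1 / 2) ^ k ω := (hp2 _).symm
          _ ≤ 2 ^ n1 * (1 / 2) ^ k ω := mul_le_mul_of_nonneg_right
              (pow_le_pow_right₀ (by norm_num) (by have := hkl ω h; omega)) (hph _).le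
      linarith
    · intro ω ω' h h' e0
      rw [hk ω ω' h h' e0]
    · intro ω ω' h h' e0
      have h1 : (1 : ℝ) ≤ 2 ^ n1 * (1 / 2) ^ k ω := by
        calc (1 : ℝ) = 2 ^ k ω * (1 / 2) ^ k ω := (hp2 _).symm
          _ ≤ 2 ^ n1 * (1 / 2) ^ k ω := mul_le_mul_of_nonneg_right
              (pow_le_pow_right₀ (by norm_num) (by have := hkl ω h; omega)) (hph _).le
      have b1 : ∀ v, μ v ≠ 0 → |e v * a v + e' v * b v| ≤ 8 * (1 / 2) ^ k v := by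
        intro v hv
        calc |e v * a v + e' v * b v| ≤ |e v * a v| + |e' v * b v| := abs_add_le _ _
          _ = |e v| * |a v| + |e' v| * |b v| := by rw [abs_mul, abs_mul]
          _ ≤ |e v| * 1 + |e' v| * 1 := add_le_add (mul_le_mul_of_nonneg_left (ha v hv) (abs_nonneg _))
              (mul_le_mul_of_nonneg_left (hb v hv) (abs_nonneg _))
          _ ≤ 8 * (1 / 2) ^ k v := by
              have := e1 v hv
              have := e1' v hv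
              linarith
      have b2 := b1 ω h
      have b3 := b1 ω' h'
      rw [← hk ω ω' h h' e0] at b3
      have b4 : |(e ω * a ω + e' ω * b ω) - (e ω' * a ω' + e' ω' * b ω')| ≤
          (16 * (2 ^ n1 * (1 / 2) ^ k ω)) * (1 / 2) ^ n1 := by
        have b5 : (16 * ((2 : ℝ) ^ n1 * (1 / 2) ^ k ω)) * (1 / 2) ^ n1 = 16 * (1 / 2) ^ k ω := by
          calc (16 * ((2 : ℝ) ^ n1 * (1 / 2) ^ k ω)) * (1 / 2) ^ n1 =
              16 * (1 / 2) ^ k ω * (2 ^ n1 * (1 / 2) ^ n1) := by ring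
            _ = 16 * (1 / 2) ^ k ω := by rw [hp2, mul_one]
        rw [b5]
        have b6 := abs_sub (e ω * a ω + e' ω * b ω) (e ω' * a ω' + e' ω' * b ω')
        linarith
      have b7 := fl_diff b4
      simp only [hX]
      linarith
  have q2 : CH μ tb (fun ω => (ta ω, (X ω, K ω))) ≤
      ∑ ω, μ ω * (Real.logb 2 (2 ^ n * 2 ^ k ω * (1 / 2) ^ n1) + (5 : ℕ)) := by
    have h1 : ∀ v : Ω, (1 : ℝ) ≤ 2 ^ n * 2 ^ k v * (1 / 2) ^ n1 := by
      intro v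
      calc (1 : ℝ) = 2 ^ n1 * (1 / 2) ^ n1 := (hp2 _).symm
        _ ≤ (2 ^ n * 2 ^ k v) * (1 / 2) ^ n1 := by
            apply mul_le_mul_of_nonneg_right _ (hph _).le
            calc (2 : ℝ) ^ n1 ≤ 2 ^ n := pow_le_pow_right₀ (by norm_num) hnn
              _ = 2 ^ n * 1 := (mul_one _).symm
              _ ≤ 2 ^ n * 2 ^ k v := mul_le_mul_of_nonneg_left (one_le_pow₀ (by norm_num)) (by positivity)
    apply ch_lg μ hμ tb _ (fun ω => 2 ^ n * 2 ^ k ω * (1 / 2) ^ n1) 5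
    · intro ω _
      have := h1 ω
      linarith
    · intro ω ω' h h' e0
      simp only [Prod.mk.injEq] at e0
      rw [hk ω ω' h h' e0.2.2]
    · intro ω ω' h h' e0
      simp only [Prod.mk.injEq] at e0
      obtain ⟨f1, f2, f3⟩ := e0
      have g1 := fl_near f1
      have g2 := fl_near f2
      rw [← he ω ω' h h' f3, ← he' ω ω' h h' f3] at g2
      have g3 : |e' ω| * |b ω - b ω'| ≤ (1 / 2) ^ n1 + 4 * (1 / 2) ^ k ω * (1 / 2) ^ n := by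
        have g4 : e' ω * (b ω - b ω') = (e ω * a ω + e' ω * b ω - (e ω * a ω' + e' ω * b ω')) -
          e ω * (a ω - a ω') := by ring
        rw [← abs_mul, g4]
        refine (abs_sub _ _).trans (add_le_add g2 ?_)
        rw [abs_mul]
        exact mul_le_mul (e1 ω h) g1 (abs_nonneg _) (by have := hph (k ω); linarith)
      have g5 : |b ω - b ω'| ≤ (4 * (2 ^ n * 2 ^ k ω * (1 / 2) ^ n1) + 16) * (1 / 2) ^ n := by
        have g6 := mul_le_mul_of_nonneg_right (e2' ω h) (abs_nonneg (b ω - b ω'))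
        have g7 : (1 / 2) ^ k ω * |b ω - b ω'| ≤ 4 * ((1 / 2) ^ n1 + 4 * (1 / 2) ^ k ω * (1 / 2) ^ n) := by
          linarith
        have g8 := mul_le_mul_of_nonneg_left g7 (show (0 : ℝ) ≤ 2 ^ k ω by positivity)
        have g9 : (2 : ℝ) ^ k ω * ((1 / 2) ^ k ω * |b ω - b ω'|) = |b ω - b ω'| := by
          rw [← mul_assoc, hp2, one_mul]
        rw [g9] at g8
        refine g8.trans (le_of_eq ?_)
        have g10 : (2 : ℝ) ^ k ω * (4 * ((1 / 2) ^ n1 + 4 * (1 / 2) ^ k ω * (1 / 2) ^ n)) =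
          4 * 2 ^ k ω * (1 / 2) ^ n1 + 16 * (2 ^ k ω * (1 / 2) ^ k ω) * (1 / 2) ^ n := by ring
        have g11 : (4 * ((2 : ℝ) ^ n * 2 ^ k ω * (1 / 2) ^ n1) + 16) * (1 / 2) ^ n =
          4 * 2 ^ k ω * (1 / 2) ^ n1 * (2 ^ n * (1 / 2) ^ n) + 16 * (1 / 2) ^ n := by ring
        rw [g10, g11, hp2, hp2]
        ring
      have g12 := fl_diff g5
      have g13 := h1 ω
      simp only [htb]
      linarith
  have c1 := ch_chain μ X ta K
  have c2 := ch_chain μ (fun ω => (X ω, ta ω)) tb K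
  have c3 : CH μ (fun ω => (ta ω, tb ω)) K ≤ CH μ (fun ω => ((X ω, ta ω), tb ω)) K := by
    apply ch_mono μ hμ
    intro ω ω' _ _ e0 _
    simp only [Prod.mk.injEq] at e0 ⊢
    exact ⟨e0.1.2, e0.2⟩
  have c4 : CH μ tb (fun ω => ((X ω, ta ω), K ω)) = CH μ tb (fun ω => (ta ω, (X ω, K ω))) := by
    apply ch_congr_right
    intro ω ω' _ _
    simp only [Prod.mk.injEq]
    tauto
  have s12 := sum_lg μ hμ hm (fun ω => 2 ^ n1 * (1 / 2) ^ k ω) (fun ω => 2 ^ n * 2 ^ k ω * (1 / 2) ^ n1) 5 5 n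
    (fun ω _ => by positivity) (fun ω _ => by positivity) (fun ω _ => by
      have : (2 : ℝ) ^ n1 * (1 / 2) ^ k ω * (2 ^ n * 2 ^ k ω * (1 / 2) ^ n1) = 2 ^ n := by
        calc (2 : ℝ) ^ n1 * (1 / 2) ^ k ω * (2 ^ n * 2 ^ k ω * (1 / 2) ^ n1) =
            2 ^ n * (2 ^ n1 * (1 / 2) ^ n1) * (2 ^ k ω * (1 / 2) ^ k ω) := by ring
          _ = 2 ^ n := by rw [hp2, hp2]; ring
      rw [this, lgpow])
  -- step 2: digits of the noise
  have q3 : CH μ (fun ω => fl l0 (τ ω)) (fun ω => (X ω, K ω)) ≤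
      ∑ ω, μ ω * (Real.logb 2 (2 ^ l0 * ρ ω) + (4 : ℕ)) := by
    have h1 : ∀ v, μ v ≠ 0 → (1 : ℝ) ≤ 4 * (2 ^ l0 * ρ v) := by
      intro v hv
      have r1 : |e v| ≤ ρ v := by
        rw [hρ]
        exact (le_div_iff₀ (s0 v hv)).mpr (by have := mul_le_mul_of_nonneg_left (s1 v hv) (abs_nonneg (e v)); linarith)
      calc (1 : ℝ) = 2 ^ k v * (1 / 2) ^ k v := (hp2 _).symm
        _ ≤ 2 ^ l0 * (1 / 2) ^ k v := mul_le_mul_of_nonneg_right
              (pow_le_pow_right₀ (by norm_num) (hkl v hv)) (hph _).le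
        _ ≤ 2 ^ l0 * (4 * ρ v) := mul_le_mul_of_nonneg_left (by have := e2 v hv; linarith) (by positivity)
        _ = 4 * (2 ^ l0 * ρ v) := by ring
    apply ch_lg μ hμ _ _ (fun ω => 2 ^ l0 * ρ ω) 4
    · intro ω h
      have h2 := h1 ω h
      have h3 : 0 < 2 ^ l0 * ρ ω := mul_pos (by positivity) (rp ω h)
      linarith
    · intro ω ω' h h' e0
      simp only [Prod.mk.injEq] at e0
      simp only [hρ]
      rw [he ω ω' h h' e0.2, hs ω ω' h h' e0.2]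
    · intro ω ω' h h' e0
      simp only [Prod.mk.injEq] at e0
      have b1 : ∀ v, μ v ≠ 0 → |τ v| ≤ ρ v := by
        intro v hv
        simp only [hτ, hρ]
        rw [abs_div, abs_mul, abs_mul, hc, one_mul, abs_of_pos (s0 v hv)]
        apply div_le_div_of_nonneg_right _ (s0 v hv).le
        have := mul_le_mul_of_nonneg_left (ha v hv) (abs_nonneg (e v))
        linarith
      have b2 := b1 ω h
      have b3 := b1 ω' h'
      have b4 : ρ ω' = ρ ω := by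
        simp only [hρ]
        rw [he ω ω' h h' e0.2, hs ω ω' h h' e0.2]
      rw [b4] at b3
      have b5 : |τ ω - τ ω'| ≤ (2 * (2 ^ l0 * ρ ω)) * (1 / 2) ^ l0 := by
        have b6 : (2 * (2 ^ l0 * ρ ω)) * (1 / 2) ^ l0 = 2 * ρ ω * (2 ^ l0 * (1 / 2) ^ l0) := by ring
        rw [b6, hp2, mul_one]
        have := abs_sub (τ ω) (τ ω')
        linarith
      have b7 := fl_diff b5
      have b8 := h1 ω h
      linarith
  have q4 : CH μ ta (fun ω => (fl l1 (τ ω), (fl l0 (τ ω), (X ω, K ω)))) ≤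
      ∑ ω, μ ω * (Real.logb 2 (2 ^ n * (1 / 2) ^ l1 / ρ ω) + (2 : ℕ)) := by
    have h1 : ∀ v, μ v ≠ 0 → (1 : ℝ) ≤ 2 ^ n * (1 / 2) ^ l1 / ρ v := by
      intro v hv
      rw [le_div_iff₀ (rp v hv), one_mul]
      calc ρ v = ρ v * (2 ^ l1 * (1 / 2) ^ l1) := by rw [hp2, mul_one]
        _ = (ρ v * 2 ^ l1) * (1 / 2) ^ l1 := by ring
        _ ≤ 2 ^ n * (1 / 2) ^ l1 := mul_le_mul_of_nonneg_right (hes v hv) (hph _).le
    apply ch_lg μ hμ _ _ (fun ω => 2 ^ n * (1 / 2) ^ l1 / ρ ω) 2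
    · intro ω h
      have h2 := h1 ω h
      linarith
    · intro ω ω' h h' e0
      simp only [Prod.mk.injEq] at e0
      simp only [hρ]
      rw [he ω ω' h h' e0.2.2.2, hs ω ω' h h' e0.2.2.2]
    · intro ω ω' h h' e0
      simp only [Prod.mk.injEq] at e0
      obtain ⟨f1, -, -, f3⟩ := e0
      have g1 := fl_near f1
      have g2 : τ ω - τ ω' = (c * e ω / s ω) * (a ω - a ω') := by
        simp only [hτ]
        rw [← he ω ω' h h' f3, ← hs ω ω' h h' f3]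
        ring
      rw [g2, abs_mul, abs_div, abs_mul, hc, one_mul, abs_of_pos (s0 ω h)] at g1
      have g3 : |a ω - a ω'| ≤ (2 ^ n * (1 / 2) ^ l1 / ρ ω) * (1 / 2) ^ n := by
        have g4 : (2 : ℝ) ^ n * (1 / 2) ^ l1 / ρ ω * (1 / 2) ^ n = (1 / 2) ^ l1 / ρ ω * (2 ^ n * (1 / 2) ^ n) := by
          ring
        rw [g4, hp2, mul_one, le_div_iff₀ (rp ω h), mul_comm]
        exact g1
      have g5 := fl_diff g3
      have g6 := h1 ω h
      simp only [hta]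
      linarith
  have c5 := ch_tri μ hμ ta (fun ω => fl l0 (τ ω)) (fun ω => (X ω, K ω))
  have c6 := ch_tri μ hμ ta (fun ω => fl l1 (τ ω)) (fun ω => (fl l0 (τ ω), (X ω, K ω)))
  have s34 := sum_lg μ hμ hm (fun ω => 2 ^ l0 * ρ ω) (fun ω => 2 ^ n * (1 / 2) ^ l1 / ρ ω) 4 2
    ((l0 : ℝ) + n - l1)
    (fun ω h => mul_pos (by positivity) (rp ω h)) (fun ω h => div_pos (by positivity) (rp ω h)) (fun ω h => by
      have h1 := (rp ω h).ne'
      have : (2 : ℝ) ^ l0 * ρ ω * (2 ^ n * (1 / 2) ^ l1 / ρ ω) = 2 ^ l0 * 2 ^ n * (1 / 2) ^ l1 := by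
        field_simp
      rw [this, Real.logb_mul (by positivity) (by positivity), Real.logb_mul (by positivity) (by positivity),
        lgpow, lgpow, one_div, inv_pow, Real.logb_inv, lgpow]
      ring)
  have c7 : CH μ ta (fun ω => (X ω, K ω)) = CH μ ta (fun ω => ((X ω), K ω)) := rfl
  have c8 : CH μ (fun ω => fl l1 (τ ω)) (fun ω => (fl l0 (τ ω), (X ω, K ω))) =
      CH μ (fun ω => fl l1 (τ ω)) (fun ω => (fl l0 (τ ω), (K ω, X ω))) := by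
    apply ch_congr_right
    intro ω ω' _ _
    simp only [Prod.mk.injEq]
    tauto
  push_cast at s12 s34 q1 q2 q3 q4
  linarith

end Pool.Agent.Helper6.VS
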